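import Pool.Agent.H11.NZ.Targets

/-!
# Board nz_modules (MP_9b2842_al), module `LPX`
-/

set_option autoImplicit false

open Equiv (Perm)

namespace Pool.Agent.H33.NZ.LPX

open Pool.Agent.H11.NZ Pool.Agent.H11.NY

theorem pf_lpx : T_LPX := by
  intro L Ω Λ _ _ _ _ _ _ ψ K V _ _ _ ρ W hsys x₀ ρ' hρ' e B q p a h hB hpair hqK hpK hrel ha
  obtain ⟨hq, hq5, hqe, hp, hpe, haq, hah, hhp, ha1, hha, hsupp⟩ := hpair
  obtain ⟨hind, -, hW, -, -⟩ := hsys
  have hpow : ∀ j : ℕ, ((⟨a, ha⟩ : MulAction.stabilizer L x₀) ^ j : MulAction.stabilizer L x₀)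
      = ⟨a ^ j, pow_mem ha j⟩ := fun j => rfl
  refine ⟨hq, hq5, hqe, ?_, ?_, ?_, hqK, ?_⟩
  · rw [hpow]
    exact Subtype.ext haq
  · intro h1
    exact ha1 (congrArg Subtype.val h1)
  · intro j hj
    have h1 : a ^ j * h ^ 0 ≠ 1 := by
      intro h2
      rw [pow_zero, mul_one] at h2
      exact hj (Subtype.ext h2)
    have h2 := hsupp j 0 h1
    rw [pow_zero, mul_one] at h2
    exact h2
  · by_cases hh : h ∈ MulAction.stabilizer L x₀
    · right
      refine ⟨p, ⟨h, hh⟩, ⟨hq, hq5, hqe, hp, hpe, Subtype.ext haq, Subtype.ext hah, ?_, ?_, ?_,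
        ?_⟩, hpK, ?_⟩
      · rcases hhp with h1 | ⟨h1, h2⟩
        · exact Or.inl (Subtype.ext h1)
        · exact Or.inr ⟨h1, Subtype.ext h2⟩
      · intro h1
        exact ha1 (congrArg Subtype.val h1)
      · intro h1
        obtain ⟨k, hk⟩ := Subgroup.mem_zpowers_iff.1 h1
        apply hha
        rw [Subgroup.mem_zpowers_iff]
        refine ⟨k, ?_⟩
        have h2 := congrArg Subtype.val hk
        simpa using h2
      · intro i j hij
        refine hsupp i j ?_
        intro h2
        exact hij (Subtype.ext h2)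
      · intro v
        apply Subtype.ext
        have h1 : ∀ w : W x₀, ((ρ' ⟨h, hh⟩ w : W x₀) : V) = ρ h (w : V) := fun w =>
          hρ' ⟨h, hh⟩ w
        have h2 : ((∑ j ∈ Finset.range q, ρ' (⟨a, ha⟩ ^ j) v : W x₀) : V) =
            ∑ j ∈ Finset.range q, ρ (a ^ j) (v : V) := by
          rw [Submodule.coe_sum]
          refine Finset.sum_congr rfl ?_
          intro j _
          exact hρ' (⟨a, ha⟩ ^ j) v
        rw [h1, h2]
        exact hrel v
    · left
      intro v hv
      have hav : ρ a (v : V) = v := by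
        rw [← hρ' ⟨a, ha⟩ v, hv]
      have hpowv : ∀ j : ℕ, ρ (a ^ j) (v : V) = v := by
        intro j
        induction j with
        | zero => simp
        | succ j ih => rw [pow_succ, map_mul, Module.End.mul_apply, hav, ih]
      have h1 := hrel (v : V)
      have h2 : ∑ j ∈ Finset.range q, ρ (a ^ j) (v : V) = (q : K) • (v : V) := by
        rw [Finset.sum_congr rfl (fun j _ => hpowv j), Finset.sum_const, Finset.card_range,
          Nat.cast_smul_eq_nsmul]
      rw [h2, map_smul] at h1
      have h3 : ρ h (v : V) = v := by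
        have h4 := congrArg (fun z => (q : K)⁻¹ • z) h1
        simpa [smul_smul, inv_mul_cancel₀ hqK] using h4
      have h4 : ρ h (v : V) ∈ W (h • x₀) := hW h x₀ v v.2
      rw [h3] at h4
      have hne : x₀ ≠ h • x₀ := fun h5 => hh h5.symm
      have hdis := hind.pairwiseDisjoint hne
      have h5 := Submodule.disjoint_def.1 hdis (v : V) v.2 h4
      exact Subtype.ext h5

end Pool.Agent.H33.NZ.LPX
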