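import Pool.Agent.H11.NZ.Targets

/-!
# Board nz_modules (MP_9b2842_al), module `PTK`
-/

set_option autoImplicit false

open Equiv (Perm)

namespace Pool.Agent.H33.NZ.PTK

open Pool.Agent.H11.NZ Pool.Agent.H11.NY

theorem pf_ptk : T_BP → T_PTK := by
  intro hBP e
  obtain ⟨B, hB⟩ := hBP (e * e)
  refine ⟨B, ?_⟩
  intro L Ω _ _ _ _ ψ X hX M hXM hker q p a h hpair hT
  obtain ⟨hq, hq5, hqe, hp, hpe, haq, hah, hhp, ha1, hha, hsupp⟩ := hpair
  have hcom : Commute a h := hah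
  -- the image of `M`
  let U : Subgroup (Perm Ω) := (M.map ψ).map (alternatingGroup Ω).subtype
  have hmemU : ∀ y ∈ M, (ψ y : Perm Ω) ∈ U := fun y hy => ⟨ψ y, ⟨y, hy, rfl⟩, rfl⟩
  have hU : U < alternatingGroup Ω := by
    refine lt_of_le_of_ne ?_ ?_
    · rintro _ ⟨z, -, rfl⟩
      exact z.2
    · intro heq
      apply hXM
      intro x _
      have h1 : (ψ x : Perm Ω) ∈ U := by rw [heq]; exact (ψ x).2
      obtain ⟨z, ⟨y, hy, rfl⟩, hz⟩ := h1
      have h2 : ψ y = ψ x := Subtype.ext hz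
      have h3 : y⁻¹ * x ∈ ψ.ker := by
        rw [MonoidHom.mem_ker, map_mul, map_inv, h2, inv_mul_cancel]
      have h4 := mul_mem hy (hker h3)
      rwa [mul_inv_cancel_left] at h4
  have hLP : LPair (e * e) B q (p * q) (ψ a : Perm Ω) (ψ h : Perm Ω) := by
    have he1 : 1 ≤ e := le_trans (by omega) hqe
    have cast_pow : ∀ (y : L) (k : ℕ), (ψ (y ^ k) : Perm Ω) = (ψ y : Perm Ω) ^ k := by
      intro y k
      rw [map_pow]; rfl
    have cast_mul : ∀ (y z : L), (ψ (y * z) : Perm Ω) = (ψ y : Perm Ω) * (ψ z : Perm Ω) := by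
      intro y z
      rw [map_mul]; rfl
    have cast_one : (ψ 1 : Perm Ω) = 1 := by rw [map_one]; rfl
    refine ⟨hq, ?_, Nat.mul_pos hp.pos hq.pos, Nat.mul_le_mul hpe hqe, ?_, ?_, ?_, ?_, ?_⟩
    · exact le_trans hqe (Nat.le_mul_of_pos_left e he1)
    · rw [← cast_pow, haq, cast_one]
    · rw [← cast_pow]
      have h1 : h ^ (p * q) = 1 := by
        rcases hhp with h2 | ⟨h2, h3⟩
        · rw [pow_mul, h2, one_pow]
        · rw [h2, pow_mul, h3, haq]
      rw [h1, cast_one]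
    · rw [← cast_mul, ← cast_mul, hah]
    · have h1 : a ^ 1 * h ^ 0 ≠ 1 := by
        rw [pow_one, pow_zero, mul_one]; exact ha1
      have h2 := hsupp 1 0 h1
      rwa [pow_one, pow_zero, mul_one] at h2
    · intro κ _
      have h1 : a ^ κ * h ^ 1 ≠ 1 := by
        intro h2
        apply hha
        rw [pow_one] at h2
        rw [eq_inv_of_mul_eq_one_right h2]
        exact inv_mem (Subgroup.npow_mem_zpowers _ _)
      have h2 := hsupp κ 1 h1
      rw [pow_one, (hcom.pow_left κ).eq, cast_mul, cast_pow] at h2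
      exact h2
  have hTC : TCond q (ψ a : Perm Ω) (ψ h : Perm Ω) U := by
    intro x hx
    have h1 : (⟨x, hx⟩ : alternatingGroup Ω)⁻¹ ∈ X.map ψ := by rw [hX.2.1]; trivial
    obtain ⟨y, -, hy⟩ := h1
    have hyx : (ψ y : Perm Ω) = x⁻¹ := by rw [hy]; rfl
    have hconj : ∀ z : L, (ψ (y⁻¹ * z * y) : Perm Ω) = x * (ψ z : Perm Ω) * x⁻¹ := by
      intro z
      rw [map_mul, map_mul, map_inv]
      have : ((ψ y)⁻¹ * ψ z * ψ y : alternatingGroup Ω) =
        (⟨x, hx⟩ : alternatingGroup Ω) * ψ z * (⟨x, hx⟩ : alternatingGroup Ω)⁻¹ := by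
        rw [hy, inv_inv]
      rw [this]; rfl
    rcases hT y with h2 | ⟨κ, hκ, h2⟩
    · left
      rw [← hconj]
      exact hmemU _ h2
    · right
      refine ⟨κ, hκ, ?_⟩
      have h3 : (ψ h : Perm Ω) * (ψ a : Perm Ω) ^ κ = (ψ (h * a ^ κ) : Perm Ω) := by
        rw [map_mul, map_pow]; rfl
      rw [h3, ← hconj]
      exact hmemU _ h2
  obtain ⟨ω, hω⟩ := hB Ω q (p * q) (ψ a : Perm Ω) (ψ h : Perm Ω) hLP U hU hTC
  exact ⟨ω, fun y hy => hω _ (hmemU y hy)⟩

end Pool.Agent.H33.NZ.PTK
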